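import Mathlib

namespace Pool.Agent.Results.MP_8b2777_lc.Idempotent

open Filter Topology

/-- the integer with digits `a 0, ..., a (n-1)` in base `N` -/
def trunc (N : ℕ) (a : ℕ → Fin N) (n : ℕ) : ℤ := ∑ i ∈ Finset.range n, (a i : ℤ) * (N : ℤ) ^ i

/-- eventually periodic sequences -/
def EvPeriodic {N : ℕ} (a : ℕ → Fin N) : Prop := ∃ p n₀ : ℕ, 0 < p ∧ ∀ i, n₀ ≤ i → a (i + p) = a i

/-- the `N`-adic integer with digit sequence `b` is the fraction `u / g` in lowest terms,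
with `g` prime to `N` -/
def IsFraction (N : ℕ) (b : ℕ → Fin N) (u g : ℤ) : Prop :=
  IsCoprime u g ∧ IsCoprime g (N : ℤ) ∧ ∀ m, g * trunc N b m ≡ u [ZMOD (N : ℤ) ^ m]

/-- the `N`-adic complexity of the first `n` terms of `a` -/
noncomputable def lam (N : ℕ) (a : ℕ → Fin N) (n : ℕ) : ℝ :=
  sInf {x : ℝ | ∃ b : ℕ → Fin N, EvPeriodic b ∧ (∀ i < n, b i = a i) ∧
    ∃ u g : ℤ, IsFraction N b u g ∧ x = Real.logb N (max |u| |g| : ℤ)}

/-- the set of accumulation points of the normalised complexity -/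
def T (N : ℕ) (a : ℕ → Fin N) : Set ℝ := {x | MapClusterPt x atTop fun n : ℕ => lam N a n / n}

lemma trunc_succ (N : ℕ) (a : ℕ → Fin N) (n : ℕ) :
    trunc N a (n + 1) = trunc N a n + (a n : ℤ) * (N : ℤ) ^ n := Finset.sum_range_succ _ _

lemma trunc_mod (N : ℕ) (a : ℕ → Fin N) (m k : ℕ) :
    trunc N a m ≡ trunc N a (m + k) [ZMOD (N : ℤ) ^ m] := by
  induction k with
  | zero => rfl
  | succ k ih =>
    rw [← add_assoc, trunc_succ, ← add_zero (trunc N a m)]
    exact ih.add (Int.modEq_zero_iff_dvd.2 ((pow_dvd_pow _ (by omega)).mul_left _)).symm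

lemma trunc_bd (N : ℕ) (a : ℕ → Fin N) (n : ℕ) : 0 ≤ trunc N a n ∧ trunc N a n < (N : ℤ) ^ n := by
  induction n with
  | zero => simp [trunc]
  | succ n ih =>
    have h : ((a n : ℕ) : ℤ) + 1 ≤ N := by exact_mod_cast (a n).2
    have h0 : (0 : ℤ) ≤ (N : ℤ) ^ n := by positivity
    have h1 : (0 : ℤ) ≤ ((a n : ℕ) : ℤ) := by positivity
    rw [trunc_succ, pow_succ]
    constructor <;> nlinarith [ih.1, ih.2]

lemma exists_idem (P Q : ℕ) (h : P.Coprime Q) (hP : 0 < P) (hQ : 0 < Q) :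
    ∃ a : ℕ → Fin (P * Q), ∀ n, (P : ℤ) ^ n ∣ trunc _ a n - 1 ∧ (Q : ℤ) ^ n ∣ trunc _ a n := by
  have hN : 0 < P * Q := Nat.mul_pos hP hQ
  have step : ∀ (n : ℕ) (A : ℤ), (P : ℤ) ^ n ∣ A - 1 ∧ (Q : ℤ) ^ n ∣ A → ∃ d : Fin (P * Q),
      (P : ℤ) ^ (n + 1) ∣ A + (d : ℤ) * ((P * Q : ℕ) : ℤ) ^ n - 1 ∧
      (Q : ℤ) ^ (n + 1) ∣ A + (d : ℤ) * ((P * Q : ℕ) : ℤ) ^ n := by
    rintro n A ⟨⟨s, hs⟩, ⟨t, ht⟩⟩
    have c : IsCoprime (P : ℤ) (Q : ℤ) := Nat.isCoprime_iff_coprime.2 h
    obtain ⟨x, y, hxy⟩ : IsCoprime ((P : ℤ) ^ (n + 1)) ((Q : ℤ) ^ (n + 1)) := c.pow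
    set D : ℤ := -(s * y * Q + t * x * P) with hD
    have hN' : (0 : ℤ) < ((P * Q : ℕ) : ℤ) := by exact_mod_cast hN
    have h0 := Int.emod_nonneg D hN'.ne'
    have h1 := Int.emod_lt_of_pos D hN'
    refine ⟨⟨(D % ((P * Q : ℕ) : ℤ)).toNat, by omega⟩, ?_, ?_⟩
    · simp only [Int.toNat_of_nonneg h0]
      rw [Int.emod_def]
      refine ⟨s * x * P ^ n - t * x * Q ^ n - Q ^ (n + 1) * (D / ((P * Q : ℕ) : ℤ)), ?_⟩
      set k := D / ((P * Q : ℕ) : ℤ)
      push_cast
      rw [hD, mul_pow]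
      linear_combination hs - (P : ℤ) ^ n * s * hxy
    · simp only [Int.toNat_of_nonneg h0]
      rw [Int.emod_def]
      refine ⟨t * y * Q ^ n - s * y * P ^ n - P ^ (n + 1) * (D / ((P * Q : ℕ) : ℤ)), ?_⟩
      set k := D / ((P * Q : ℕ) : ℤ)
      push_cast
      rw [hD, mul_pow]
      linear_combination ht - (Q : ℤ) ^ n * t * hxy
  have : Nonempty (Fin (P * Q)) := ⟨⟨0, hN⟩⟩
  choose! d hd using step
  let A : ℕ → ℤ := fun n => Nat.rec 0 (fun n A => A + (d n A : ℤ) * ((P * Q : ℕ) : ℤ) ^ n) n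
  have hA : ∀ n, trunc _ (fun n => d n (A n)) n = A n := by
    intro n
    induction n with
    | zero => simp [trunc, A]
    | succ n ih => rw [trunc_succ, ih]
  refine ⟨fun n => d n (A n), fun n => ?_⟩
  rw [hA]
  induction n with
  | zero => simp
  | succ n ih => exact hd n (A n) ih

lemma main (P Q : ℕ) (h : P.Coprime Q) (hP : 1 < P) (hPQ : P < Q) :
    ∃ a : ℕ → Fin (P * Q), ¬ EvPeriodic a ∧ ∀ B : ℝ, T _ a ≠ Set.Icc B (1 - B) := by
  obtain ⟨a, ha⟩ := exists_idem P Q h (by omega) (by omega)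
  have hP' : ¬ IsUnit (P : ℤ) := by
    rw [Int.isUnit_iff]; omega
  have hN1 : 1 < P * Q := by nlinarith
  have hNr : (1 : ℝ) < (P * Q : ℕ) := by exact_mod_cast hN1
  have hQr : (1 : ℝ) < Q := by exact_mod_cast hP.trans hPQ
  refine ⟨a, ?_, ?_⟩
  · rintro ⟨p, n₀, hp, hper⟩
    have key : ∀ k, trunc _ a (n₀ + k + p) - trunc _ a (n₀ + p) =
        ((P * Q : ℕ) : ℤ) ^ p * (trunc _ a (n₀ + k) - trunc _ a n₀) := by
      intro k
      induction k with
      | zero => simp
      | succ k ih =>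
        rw [show n₀ + (k + 1) + p = n₀ + k + p + 1 by ring, ← add_assoc, trunc_succ, trunc_succ,
          hper _ (by omega), pow_add]
        linear_combination ih
    set D := trunc _ a (n₀ + p) - ((P * Q : ℕ) : ℤ) ^ p * trunc _ a n₀ with hD
    have hD0 : D = 0 := by
      refine Int.eq_zero_of_abs_lt_dvd (m := (Q : ℤ) ^ D.natAbs) ?_ ?_
      · have e : D = trunc _ a (n₀ + D.natAbs + p) -
            ((P * Q : ℕ) : ℤ) ^ p * trunc _ a (n₀ + D.natAbs) := by
          linear_combination hD - key D.natAbs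
        nth_rw 2 [e]
        exact dvd_sub ((pow_dvd_pow _ (by omega)).trans (ha _).2)
          (((pow_dvd_pow _ (by omega)).trans (ha _).2).mul_left _)
      · rw [Int.abs_eq_natAbs]
        exact_mod_cast Nat.lt_pow_self (by omega)
    have e : (1 : ℤ) = ((P * Q : ℕ) : ℤ) ^ p * trunc _ a (n₀ + 1) -
        (trunc _ a (n₀ + 1 + p) - 1) := by linear_combination key 1 + hD0 - hD
    apply hP'
    rw [isUnit_iff_dvd_one, e]
    refine dvd_sub (Dvd.dvd.mul_right (dvd_pow ?_ hp.ne') _)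
      ((dvd_pow_self _ (by omega)).trans (ha _).1)
    push_cast; exact dvd_mul_right _ _
  · intro B hB
    set c : ℝ := Real.logb (P * Q : ℕ) Q with hc
    have hc2 : 1 / 2 < c := by
      rw [hc, Real.lt_logb_iff_rpow_lt hNr (by linarith), ← Real.sqrt_eq_rpow,
        Real.sqrt_lt' (by linarith)]
      have : P * Q < Q ^ 2 := by nlinarith
      exact_mod_cast this
    have bd : ∀ n : ℕ, 1 ≤ n → lam _ a n / n ∈ Set.Icc c 1 := by
      intro n hn
      have hn' : (0 : ℝ) < n := by exact_mod_cast hn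
      have low : ∀ x ∈ {x : ℝ | ∃ b : ℕ → Fin (P * Q), EvPeriodic b ∧ (∀ i < n, b i = a i) ∧
          ∃ u g : ℤ, IsFraction _ b u g ∧ x = Real.logb (P * Q : ℕ) (max |u| |g| : ℤ)},
          c * n ≤ x := by
        rintro x ⟨b, -, hb, u, g, ⟨-, h2, h3⟩, rfl⟩
        have e : trunc _ b n = trunc _ a n :=
          Finset.sum_congr rfl fun i hi => by rw [hb i (Finset.mem_range.1 hi)]
        have h4 := (h3 n).dvd
        rw [e] at h4
        push_cast at h4 h2
        rw [mul_pow] at h4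
        have h5 : (Q : ℤ) ^ n ∣ u := by
          have := dvd_add ((dvd_mul_left _ _).trans h4) ((ha n).2.mul_left g)
          rwa [sub_add_cancel] at this
        have h6 : u ≠ 0 := by
          rintro rfl
          have := dvd_add ((dvd_mul_right _ _).trans h4) ((ha n).1.mul_left g)
          rw [show 0 - g * trunc _ a n + g * (trunc _ a n - 1) = -g by ring, dvd_neg] at this
          exact hP' (h2.isUnit_of_dvd' ((dvd_pow_self _ (by omega)).trans this) (dvd_mul_right _ _))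
        have h7 : (Q : ℤ) ^ n ≤ max |u| |g| :=
          (Int.le_of_dvd (abs_pos.2 h6) ((dvd_abs _ _).2 h5)).trans (le_max_left _ _)
        rw [hc, mul_comm, ← Real.logb_pow]
        exact Real.logb_le_logb_of_le hNr (by positivity) (by exact_mod_cast h7)
      let b : ℕ → Fin (P * Q) := fun i => if i < n then a i else ⟨0, by omega⟩
      have hb : ∀ k, trunc _ b (n + k) = trunc _ b n := by
        intro k
        induction k with
        | zero => rfl
        | succ k ih => rw [← add_assoc, trunc_succ, ih]; simp [b]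
      have mem : Real.logb (P * Q : ℕ) (max |trunc _ b n| |1| : ℤ) ∈
          {x : ℝ | ∃ b : ℕ → Fin (P * Q), EvPeriodic b ∧ (∀ i < n, b i = a i) ∧
          ∃ u g : ℤ, IsFraction _ b u g ∧ x = Real.logb (P * Q : ℕ) (max |u| |g| : ℤ)} := by
        refine ⟨b, ⟨1, n, one_pos, fun i hi => ?_⟩, fun i hi => if_pos hi, _, 1,
          ⟨isCoprime_one_right, isCoprime_one_left, fun m => ?_⟩, rfl⟩
        · simp only [b]
          rw [if_neg (by omega), if_neg (by omega)]
        · rw [one_mul]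
          rcases le_total n m with h | h
          · obtain ⟨k, rfl⟩ := Nat.exists_eq_add_of_le h
            rw [hb]
          · obtain ⟨k, rfl⟩ := Nat.exists_eq_add_of_le h
            exact trunc_mod _ b m k
      constructor
      · rw [le_div_iff₀ hn']
        exact le_csInf ⟨_, mem⟩ low
      · rw [div_le_one hn']
        refine (csInf_le ⟨_, low⟩ mem).trans ?_
        have h1 := trunc_bd _ b n
        have h2 : max |trunc _ b n| |1| ≤ ((P * Q : ℕ) : ℤ) ^ n := by
          rw [abs_of_nonneg h1.1, abs_one]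
          exact max_le h1.2.le (by omega)
        rw [Real.logb_le_iff_le_rpow hNr (by positivity), Real.rpow_natCast]
        exact_mod_cast h2
    have ev : ∀ᶠ n : ℕ in atTop, lam _ a n / n ∈ Set.Icc c 1 := eventually_atTop.2 ⟨1, bd⟩
    obtain ⟨x, -, hx⟩ := isCompact_Icc.exists_mapClusterPt (f := atTop)
      (u := fun n : ℕ => lam _ a n / n) (le_principal_iff.2 ev)
    have hx' : x ∈ Set.Icc B (1 - B) := hB ▸ hx
    have h12 : (1 / 2 : ℝ) ∈ T _ a := by
      rw [hB]; constructor <;> linarith [hx'.1, hx'.2]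
    have := isClosed_Icc.mem_of_mapClusterPt h12 ev
    linarith [this.1]

theorem result (N : ℕ) (hN : 2 ≤ N) (h : ¬ IsPrimePow N) :
    ∃ a : ℕ → Fin N, ¬ EvPeriodic a ∧ ∀ B : ℝ, T N a ≠ Set.Icc B (1 - B) := by
  obtain ⟨P, Q, hc, hP, hQ, rfl⟩ : ∃ P Q : ℕ, P.Coprime Q ∧ 1 < P ∧ 1 < Q ∧ N = P * Q := by
    induction N using Nat.recOnPosPrimePosCoprime with
    | zero => omega
    | one => omega
    | prime_pow p n hp hn => exact absurd (hp.isPrimePow.pow hn.ne') h
    | coprime a b ha hb hab _ _ => exact ⟨a, b, hab, ha, hb, rfl⟩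
  rcases lt_trichotomy P Q with h1 | h1 | h1
  · exact main P Q hc hP h1
  · subst h1
    simp at hc
    omega
  · rw [mul_comm]
    exact main Q P hc.symm hQ h1

end Pool.Agent.Results.MP_8b2777_lc.Idempotent
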